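import Mathlib

open Set Filter Topology
open scoped RealInnerProductSpace

namespace Pool.Agent.Results.MP_c48ca6_an.Counter

variable {H : Type} [NormedAddCommGroup H] [InnerProductSpace ℝ H]

/-- the normal cone of `A` at `x` -/
def normalCone (A : Set H) (x : H) : Set H := {v | ∀ a ∈ A, ⟪a - x, v⟫ ≤ 0}

/-- `A` is `α`-sharp with respect to `u` -/
def Sharp (A : Set H) (α : ℝ) (u : H) : Prop :=
  ∀ x ∈ A, u ∉ normalCone A x → α ≤ Metric.infDist u (normalCone A x)

/-- `A` is a finite intersection of closed half-spaces -/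
def Polyhedral (A : Set H) : Prop :=
  ∃ (m : ℕ) (a : Fin m → H) (b : Fin m → ℝ), A = {x | ∀ j, ⟪a j, x⟫ ≤ b j}

lemma notPoly (hH : ¬ FiniteDimensional ℝ H) {A : Set H} {x : H} (hx : x ∈ A)
    (hb : Bornology.IsBounded A) : ¬ Polyhedral A := by
  rintro ⟨m, a, b, rfl⟩
  obtain ⟨w, hw, h0⟩ : ∃ w ∈ (Submodule.span ℝ (range a))ᗮ, w ≠ 0 := by
    by_contra h
    push Not at h
    haveI := FiniteDimensional.span_of_finite ℝ (finite_range a)
    have : Submodule.span ℝ (range a) = ⊤ :=
      Submodule.orthogonal_eq_bot_iff.1 ((Submodule.eq_bot_iff _).2 h)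
    exact hH ⟨this ▸ Submodule.fg_span (finite_range a)⟩
  obtain ⟨C, hC⟩ := hb.exists_norm_le
  have p := norm_pos_iff.2 h0
  have c0 := (norm_nonneg _).trans (hC x hx)
  have := hC (x + ((2 * C + 1) / ‖w‖) • w) fun j => by
    rw [inner_add_right, inner_smul_right, hw _ (Submodule.subset_span ⟨j, rfl⟩), mul_zero,
      add_zero]
    exact hx j
  have h2 := norm_sub_le (x + ((2 * C + 1) / ‖w‖) • w) x
  rw [add_sub_cancel_left, norm_smul, Real.norm_of_nonneg (by positivity),
    div_mul_cancel₀ _ p.ne'] at h2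
  linarith [hC x hx]

/-- In a suitable real Hilbert space there is a nonempty closed convex set which is `α`-sharp with
respect to every unit vector for one `α > 0` but is not polyhedral. -/
theorem result :
    ∃ (H : Type) (_ : NormedAddCommGroup H) (_ : InnerProductSpace ℝ H) (_ : CompleteSpace H)
      (A : Set H) (α : ℝ), A.Nonempty ∧ IsClosed A ∧ Convex ℝ A ∧ 0 < α ∧
      (∀ u : H, ‖u‖ = 1 → Sharp A α u) ∧ ¬ Polyhedral A := by
  refine ⟨lp (fun _ : ℕ => ℝ) 2, inferInstance, inferInstance, inferInstance, {0}, 1,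
    singleton_nonempty _, isClosed_singleton, convex_singleton _, one_pos,
    fun u _ x hx h => (h fun a ha => ?_).elim, notPoly (fun h => ?_) rfl Bornology.isBounded_singleton⟩
  · rw [show a = 0 from ha, show x = 0 from hx]; simp
  · have o : Orthonormal ℝ fun n : ℕ => (lp.single 2 n 1 : lp (fun _ : ℕ => ℝ) 2) :=
      orthonormal_iff_ite.2 fun i j => by
        by_cases e : i = j <;> simp [lp.inner_single_left, e]
    exact Module.Finite.not_linearIndependent_of_infinite _ o.linearIndependent

end Pool.Agent.Results.MP_c48ca6_an.Counter
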